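import Pool.Agent.P8H6.Uni.Defs

/-!
# Equidistribution of a moving Beatty sequence (package EQ of project UNI, helper93)
-/

set_option autoImplicit false

namespace Pool.Agent.P8H6.Uni

open Finset Filter Topology
open Pool.Agent.TH112.BL (Bd QD win)
open Pool.Agent.Y958.TC
open Pool.Agent.P8H6.Irr

namespace EQp

lemma ind_t {P : ℕ → Prop} {n : ℕ} (h : P n) : ind P n = 1 := by unfold ind; rw [if_pos h]

lemma ind_f {P : ℕ → Prop} {n : ℕ} (h : ¬ P n) : ind P n = 0 := by unfold ind; rw [if_neg h]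

/-! ### geometric sums in residue classes -/

/-- `e(α n)` on a residue class -/
noncomputable def gs (W v : ℕ) (α : ℝ) (n : ℕ) : ℂ :=
  if n % W = v then Complex.exp (2 * Real.pi * Complex.I * ((α * n : ℝ) : ℂ)) else 0

lemma gs_norm (W v : ℕ) (α : ℝ) (n : ℕ) : ‖gs W v α n‖ ≤ if n % W = v then 1 else 0 := by
  unfold gs
  split_ifs
  · have : (2 * Real.pi * Complex.I * ((α * n : ℝ) : ℂ)) =
        ((2 * Real.pi * (α * n) : ℝ) : ℂ) * Complex.I := by push_cast; ring
    rw [this, Complex.norm_exp_ofReal_mul_I]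
  · simp

lemma gs_shift (W v : ℕ) (α : ℝ) (n : ℕ) :
    gs W v α (n + W) = Complex.exp (2 * Real.pi * Complex.I * ((α * W : ℝ) : ℂ)) * gs W v α n := by
  unfold gs
  rw [Nat.add_mod_right]
  split_ifs
  · rw [← Complex.exp_add]
    congr 1
    push_cast
    ring
  · simp

lemma gs_window {W : ℕ} (v : ℕ) (α : ℝ) (a : ℕ) : ‖∑ n ∈ Ico a (a + W), gs W v α n‖ ≤ 1 := by
  classical
  refine (norm_sum_le _ _).trans ((sum_le_sum fun n _ => gs_norm W v α n).trans ?_)
  rw [← sum_filter, sum_const, nsmul_eq_mul, mul_one]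
  have : ((Ico a (a + W)).filter fun n => n % W = v).card ≤ 1 := by
    rw [card_le_one]
    intro m hm n hn
    rw [mem_filter, mem_Ico] at hm hn
    have h : m ≡ n [MOD W] := by
      show m % W = n % W
      rw [hm.2, hn.2]
    refine h.eq_of_abs_lt ?_
    rw [abs_lt]
    constructor <;> omega
  exact_mod_cast this

lemma gs_sum {W : ℕ} (v : ℕ) (α : ℝ) (a b : ℕ) (hab : a ≤ b) :
    ‖Complex.exp (2 * Real.pi * Complex.I * ((α * W : ℝ) : ℂ)) - 1‖ *
      ‖∑ n ∈ Ico a b, gs W v α n‖ ≤ 2 := by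
  rw [← norm_mul]
  have e1 : (Complex.exp (2 * Real.pi * Complex.I * ((α * W : ℝ) : ℂ)) - 1) *
      ∑ n ∈ Ico a b, gs W v α n =
      ∑ n ∈ Ico b (b + W), gs W v α n - ∑ n ∈ Ico a (a + W), gs W v α n := by
    have h1 : Complex.exp (2 * Real.pi * Complex.I * ((α * W : ℝ) : ℂ)) *
        ∑ n ∈ Ico a b, gs W v α n = ∑ n ∈ Ico (a + W) (b + W), gs W v α n := by
      rw [mul_sum, ← Finset.sum_Ico_add' (fun n => gs W v α n) a b W]
      exact sum_congr rfl fun n _ => (gs_shift W v α n).symm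
    rw [sub_mul, one_mul, h1]
    have h2 := sum_Ico_consecutive (fun n => gs W v α n) (show a ≤ a + W by omega)
      (show a + W ≤ b + W by omega)
    have h3 := sum_Ico_consecutive (fun n => gs W v α n) hab (show b ≤ b + W by omega)
    linear_combination h2 - h3
  rw [e1]
  refine (norm_sub_le _ _).trans ?_
  have := gs_window (W := W) v α b
  have := gs_window (W := W) v α a
  linarith

lemma exp_sub_one (t : ℝ) : 4 * |t - round t| ≤
    ‖Complex.exp (2 * Real.pi * Complex.I * (t : ℂ)) - 1‖ := by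
  have h1 : Complex.exp (2 * Real.pi * Complex.I * (t : ℂ)) =
      Complex.exp (Complex.I * ((2 * Real.pi * (t - round t) : ℝ) : ℂ)) := by
    rw [Complex.exp_eq_exp_iff_exists_int]
    exact ⟨round t, by push_cast; ring⟩
  rw [h1, Complex.norm_exp_I_mul_ofReal_sub_one]
  have h2 : 2 * Real.pi * (t - round t) / 2 = Real.pi * (t - round t) := by ring
  rw [h2, norm_mul, Real.norm_eq_abs, Real.norm_eq_abs]
  have h3 := abs_sub_round t
  have hpi := Real.pi_pos
  have h4 : |Real.pi * (t - round t)| ≤ Real.pi / 2 := by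
    rw [abs_mul, abs_of_pos hpi]
    nlinarith
  have h5 := Real.mul_abs_le_abs_sin h4
  rw [abs_mul, abs_of_pos hpi] at h5
  have h6 : 2 / Real.pi * (Real.pi * |t - round t|) = 2 * |t - round t| := by
    field_simp
  rw [h6] at h5
  rw [abs_of_pos (show (0 : ℝ) < 2 by norm_num)]
  linarith

/-- real version with a phase -/
lemma ph_sum {W : ℕ} (v : ℕ) (α θ : ℝ) (a b : ℕ) (hab : a ≤ b) {κ : ℝ} (hκ : 0 < κ)
    (h : ∀ y : ℤ, κ ≤ |α * W - y|) :
    |∑ n ∈ Ico a b, (if n % W = v then (1 : ℝ) else 0) * ph θ (α * n)| ≤ 1 / (2 * κ) := by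
  have e1 : ∑ n ∈ Ico a b, (if n % W = v then (1 : ℝ) else 0) * ph θ (α * n) =
      (Complex.exp (2 * Real.pi * Complex.I * (θ : ℂ)) * ∑ n ∈ Ico a b, gs W v α n).re := by
    rw [mul_sum, Complex.re_sum]
    refine sum_congr rfl fun n _ => ?_
    unfold gs ph
    split_ifs
    · rw [← Complex.exp_add]
      have : 2 * Real.pi * Complex.I * (θ : ℂ) + 2 * Real.pi * Complex.I * ((α * n : ℝ) : ℂ) =
          ((2 * Real.pi * (α * n + θ) : ℝ) : ℂ) * Complex.I := by push_cast; ring
      rw [this, Complex.exp_ofReal_mul_I_re, one_mul]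
    · simp
  rw [e1]
  refine (Complex.abs_re_le_norm _).trans ?_
  have hn : ‖Complex.exp (2 * Real.pi * Complex.I * (θ : ℂ))‖ = 1 := by
    have : (2 * Real.pi * Complex.I * (θ : ℂ)) = ((2 * Real.pi * θ : ℝ) : ℂ) * Complex.I := by
      push_cast; ring
    rw [this, Complex.norm_exp_ofReal_mul_I]
  rw [norm_mul, hn, one_mul]
  have h1 := gs_sum (W := W) v α a b hab
  have h2 := (mul_le_mul_of_nonneg_left (h (round (α * W))) (by norm_num : (0 : ℝ) ≤ 4)).trans
    (exp_sub_one (α * W))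
  rw [le_div_iff₀ (by positivity)]
  nlinarith [norm_nonneg (∑ n ∈ Ico a b, gs W v α n)]

/-! ### Weyl sums of the moving sequence -/

lemma weyl (U : Ultrafilter ℕ) (hU : (U : Filter ℕ) ≤ atTop) {L : ℕ} {x β : ℕ → ℝ}
    (hx : Mov U L x β) {W : ℕ} (hW : 1 ≤ W) (v : ℕ) (z : ℤ) (hz : z ≠ 0) (θ : ℝ) :
    (um U hU).m (fun n => (if n % W = v then (1 : ℝ) else 0) * ph θ (z * (x n / W))) = 0 := by
  have hW0 : (0 : ℝ) < W := by exact_mod_cast hW
  have hb1 : ∀ n : ℕ, |(if n % W = v then (1 : ℝ) else 0) * ph θ (z * (x n / W))| ≤ 1 := by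
    intro n
    refine mul_le' ?_ (ph_le _ _)
    split_ifs <;> norm_num
  have hb : Bd (fun n => (if n % W = v then (1 : ℝ) else 0) * ph θ (z * (x n / W))) := ⟨1, hb1⟩
  refine tendsto_nhds_unique (um_tendsto U hU hb) ?_
  rw [tendsto_zero_iff_abs_tendsto_zero, Metric.tendsto_nhds]
  intro ε hε
  have hlin := hx.lin (ε / 4) (by positivity)
  have hsp := hx.spread z.natAbs (by omega) (2 / ε)
  have hlarge : ∀ᶠ M : ℕ in (U : Filter ℕ), 4 / ε ≤ M :=
    hU ((tendsto_natCast_atTop_atTop (R := ℝ)).eventually_ge_atTop (4 / ε))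
  filter_upwards [hlin, hsp, hlarge] with M h1 h2 h3
  have hM : (0 : ℝ) < M := lt_of_lt_of_le (by positivity) h3
  rw [Real.dist_eq, sub_zero]
  show (|(|Av M _|)|) < ε
  rw [abs_abs]
  unfold Av
  rw [abs_div, Nat.abs_cast, div_lt_iff₀ hM]
  set a : ℕ := ⌈ε / 4 * M⌉₊ with ha
  have ha1 : ε / 4 * M ≤ a := Nat.le_ceil _
  have ha2 : (a : ℝ) < ε / 4 * M + 1 := Nat.ceil_lt_add_one (by positivity)
  have h4 : (1 : ℝ) ≤ ε / 4 * M := by
    rw [div_le_iff₀ hε] at h3
    linarith
  rcases le_or_gt M a with hMa | hMa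
  · -- trivial
    have h5 : |∑ n ∈ range M, (if n % W = v then (1 : ℝ) else 0) * ph θ (z * (x n / W))| ≤ M := by
      refine (abs_sum_le_sum_abs _ _).trans ((sum_le_sum fun n _ => hb1 n).trans (le_of_eq ?_))
      rw [sum_const, card_range, nsmul_eq_mul, mul_one]
    have h6 : (M : ℝ) ≤ a := by exact_mod_cast hMa
    refine lt_of_le_of_lt h5 ?_
    nlinarith
  · rw [range_eq_Ico, ← sum_Ico_consecutive _ (Nat.zero_le a) hMa.le]
    have h5 : |∑ n ∈ Ico 0 a, (if n % W = v then (1 : ℝ) else 0) * ph θ (z * (x n / W))| ≤ a := by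
      refine (abs_sum_le_sum_abs _ _).trans ((sum_le_sum fun n _ => hb1 n).trans (le_of_eq ?_))
      rw [sum_const, Nat.card_Ico, nsmul_eq_mul, mul_one, Nat.sub_zero]
    have h6 : ∑ n ∈ Ico a M, (if n % W = v then (1 : ℝ) else 0) * ph θ (z * (x n / W)) =
        ∑ n ∈ Ico a M, (if n % W = v then (1 : ℝ) else 0) * ph θ (z * β M / W * n) := by
      refine sum_congr rfl fun n hn => ?_
      rw [mem_Ico] at hn
      have h7 : ε / 4 * M ≤ n := ha1.trans (by exact_mod_cast hn.1)
      rw [h1 n h7 hn.2]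
      congr 2
      ring
    have h7 := ph_sum (W := W) v (z * β M / W) θ a M hMa.le (κ := 2 / ε / M) (by positivity)
      (fun y => by
        have e : z * β M / W * W - y = z * β M - y := by field_simp
        rw [e, div_le_iff₀ hM]
        rcases Int.natAbs_eq z with hz' | hz'
        · have h8 := h2 y
          have e2 : ((z.natAbs : ℕ) : ℝ) = (z : ℝ) := by
            rw [← Int.cast_natCast z.natAbs, ← hz']
          rw [e2] at h8
          linarith
        · have h8 := h2 (-y)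
          have e2 : ((z.natAbs : ℕ) : ℝ) = -(z : ℝ) := by
            have h9 : ((z.natAbs : ℕ) : ℤ) = -z := by omega
            rw [← Int.cast_natCast z.natAbs, h9, Int.cast_neg]
          rw [e2] at h8
          have e3 : |-(z : ℝ) * β M - ((-y : ℤ) : ℝ)| = |z * β M - y| := by
            rw [← abs_neg]
            congr 1
            push_cast
            ring
          rw [e3] at h8
          linarith)
    rw [h6]
    have h8 : 1 / (2 * (2 / ε / M)) = ε / 4 * M := by field_simp; norm_num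
    rw [h8] at h7
    refine lt_of_le_of_lt (abs_add_le _ _) ?_
    nlinarith

/-! ### the functional -/

section mean

variable (μ : NM) (F : ℕ → ℝ) (hF : ∀ n, |F n| ≤ 1) (y : ℕ → ℝ)

include hF in
lemma bdF (c : UnitAddCircle) (f : C(UnitAddCircle, ℂ)) :
    ∀ n : ℕ, ‖(F n : ℂ) * f (((y n : ℝ) : UnitAddCircle) + c)‖ ≤ ‖f‖ := by
  intro n
  rw [norm_mul, Complex.norm_real, Real.norm_eq_abs]
  calc |F n| * ‖f (((y n : ℝ) : UnitAddCircle) + c)‖ ≤ 1 * ‖f‖ :=
        mul_le_mul (hF n) (f.norm_coe_le_norm _) (norm_nonneg _) zero_le_one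
    _ = ‖f‖ := one_mul _

/-- the weighted mean along `y n + c` as a continuous linear functional -/
noncomputable def LG (c : UnitAddCircle) : C(UnitAddCircle, ℂ) →L[ℂ] ℂ :=
  LinearMap.mkContinuous
    { toFun := fun f => J3h460.mC μ (fun n => (F n : ℂ) * f (((y n : ℝ) : UnitAddCircle) + c))
      map_add' := fun f g => by
        have := J3h460.mC_add μ ⟨_, bdF F hF y c f⟩ ⟨_, bdF F hF y c g⟩
        rw [← this]
        congr 1
        funext n
        rw [ContinuousMap.add_apply]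
        ring
      map_smul' := fun a f => by
        have := J3h460.mC_smul μ a ⟨_, bdF F hF y c f⟩
        rw [RingHom.id_apply, smul_eq_mul, ← this]
        congr 1
        funext n
        rw [ContinuousMap.smul_apply, smul_eq_mul]
        ring } 2 (fun f => J3h460.mC_norm_le μ (bdF F hF y c f))

lemma LG_apply (c : UnitAddCircle) (f : C(UnitAddCircle, ℂ)) :
    LG μ F hF y c f = J3h460.mC μ (fun n => (F n : ℂ) * f (((y n : ℝ) : UnitAddCircle) + c)) := rfl

lemma fourier_val' (z : ℤ) (t : ℝ) : (fourier z ((t : UnitAddCircle)) : ℂ) =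
    ((ph 0 (z * t) : ℝ) : ℂ) + ((ph (-(1 / 4)) (z * t) : ℝ) : ℂ) * Complex.I := by
  rw [fourier_coe_apply]
  unfold ph
  have h2 : Real.cos (2 * Real.pi * (z * t + -(1 / 4))) = Real.sin (2 * Real.pi * (z * t)) := by
    rw [show 2 * Real.pi * (z * t + -(1 / 4)) = 2 * Real.pi * (z * t) - Real.pi / 2 by ring,
      Real.cos_sub_pi_div_two]
  rw [h2, add_zero, Complex.ofReal_cos, Complex.ofReal_sin, ← Complex.exp_mul_I]
  congr 1
  push_cast
  ring

lemma LG_eq (h : ∀ z : ℤ, z ≠ 0 → ∀ θ : ℝ, μ.m (fun n => F n * ph θ (z * y n)) = 0)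
    (c : UnitAddCircle) : LG μ F hF y c = LG μ F hF y 0 := by
  have key : (⊤ : Submodule ℂ C(UnitAddCircle, ℂ)) ≤ (LG μ F hF y c - LG μ F hF y 0).ker := by
    rw [← span_fourier_closure_eq_top]
    refine Submodule.topologicalClosure_minimal _ ?_ (ContinuousLinearMap.isClosed_ker _)
    rw [Submodule.span_le]
    rintro _ ⟨z, rfl⟩
    show (LG μ F hF y c - LG μ F hF y 0) (fourier z) = 0
    rw [sub_apply, sub_eq_zero, LG_apply, LG_apply]
    have e1 : (fun n : ℕ => (F n : ℂ) * fourier z (((y n : ℝ) : UnitAddCircle) + c)) =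
        (fun n : ℕ => fourier z c * ((F n : ℂ) * fourier z ((y n : ℝ) : UnitAddCircle))) := by
      funext n
      have e2 : fourier z (((y n : ℝ) : UnitAddCircle) + c) =
          fourier z ((y n : ℝ) : UnitAddCircle) * fourier z c := by
        rw [fourier_apply, fourier_apply, fourier_apply, smul_add, AddCircle.toCircle_add, Circle.coe_mul]
      rw [e2]
      ring
    rw [e1]
    simp only [add_zero]
    have hb : J3h460.BdC (fun n : ℕ => (F n : ℂ) * fourier z ((y n : ℝ) : UnitAddCircle)) := by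
      refine ⟨‖(fourier z : C(UnitAddCircle, ℂ))‖, fun n => ?_⟩
      have := bdF F hF y 0 (fourier z) n
      simpa using this
    rw [J3h460.mC_smul μ _ hb]
    by_cases hz : z = 0
    · subst hz
      rw [fourier_zero, one_mul]
    · have e3 : J3h460.mC μ (fun n : ℕ => (F n : ℂ) * fourier z ((y n : ℝ) : UnitAddCircle)) = 0 := by
        unfold J3h460.mC
        have e4 : ∀ n : ℕ, (F n : ℂ) * fourier z ((y n : ℝ) : UnitAddCircle) =
            ((F n * ph 0 (z * y n) : ℝ) : ℂ) + ((F n * ph (-(1 / 4)) (z * y n) : ℝ) : ℂ) * Complex.I := by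
          intro n
          rw [fourier_val']
          push_cast
          ring
        have e5 : (fun n : ℕ => ((F n : ℂ) * fourier z ((y n : ℝ) : UnitAddCircle)).re) =
            fun n => F n * ph 0 (z * y n) := by
          funext n
          rw [e4]
          simp
        have e6 : (fun n : ℕ => ((F n : ℂ) * fourier z ((y n : ℝ) : UnitAddCircle)).im) =
            fun n => F n * ph (-(1 / 4)) (z * y n) := by
          funext n
          rw [e4]
          simp
        rw [e5, e6, h z hz 0, h z hz _]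
        simp
      rw [e3, mul_zero]
  ext f
  have := key (Submodule.mem_top (x := f))
  have h2 : (LG μ F hF y c - LG μ F hF y 0) f = 0 := this
  rw [sub_apply, sub_eq_zero] at h2
  exact h2

/-- translation invariance for real continuous functions -/
lemma real_inv (h : ∀ z : ℤ, z ≠ 0 → ∀ θ : ℝ, μ.m (fun n => F n * ph θ (z * y n)) = 0)
    (hF : ∀ n, |F n| ≤ 1) (g : UnitAddCircle → ℝ) (hg : Continuous g) (c : ℝ) :
    μ.m (fun n => F n * g ((y n - c : ℝ) : UnitAddCircle)) =
      μ.m (fun n => F n * g ((y n : ℝ) : UnitAddCircle)) := by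
  set G : C(UnitAddCircle, ℂ) := ⟨fun x => ((g x : ℝ) : ℂ),
      Complex.continuous_ofReal.comp hg⟩ with hG
  have h1 := congrArg (fun L => L G) (LG_eq μ F hF y h ((-c : ℝ) : UnitAddCircle))
  simp only [LG_apply] at h1
  have e1 : (fun n : ℕ => (F n : ℂ) * G (((y n : ℝ) : UnitAddCircle) + ((-c : ℝ) : UnitAddCircle))) =
      fun n : ℕ => ((F n * g ((y n - c : ℝ) : UnitAddCircle) : ℝ) : ℂ) := by
    funext n
    rw [← AddCircle.coe_add, ← sub_eq_add_neg]
    push_cast
    rfl
  have e2 : (fun n : ℕ => (F n : ℂ) * G (((y n : ℝ) : UnitAddCircle) + 0)) =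
      fun n : ℕ => ((F n * g ((y n : ℝ) : UnitAddCircle) : ℝ) : ℂ) := by
    funext n
    rw [add_zero]
    push_cast
    rfl
  rw [e1, e2, J3h460.mC_ofReal, J3h460.mC_ofReal] at h1
  exact_mod_cast h1

/-- small arcs have small mass -/
lemma small_arc (h : ∀ z : ℤ, z ≠ 0 → ∀ θ : ℝ, μ.m (fun n => (1 : ℝ) * ph θ (z * y n)) = 0)
    {K : ℕ} (hK : 1 ≤ K) (c : ℝ) :
    μ.m (ind (fun n => ‖((y n - c : ℝ) : UnitAddCircle)‖ < 1 / (4 * K))) ≤ 2 / K := by
  classical
  have hK0 : (0 : ℝ) < K := by exact_mod_cast hK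
  set g : UnitAddCircle → ℝ := J3h460.hh (2 * K) with hg
  have hgc : Continuous g := J3h460.hh_cont _
  have hg0 : ∀ t, 0 ≤ g t := fun t => le_max_left _ _
  have hg1 : ∀ t, g t ≤ 1 := fun t => max_le zero_le_one (by
    have := norm_nonneg t
    push_cast
    nlinarith)
  have hgz : ∀ t : UnitAddCircle, g t ≠ 0 → ‖t‖ < 1 / (2 * K) := by
    intro t ht
    by_contra hcon
    push Not at hcon
    apply ht
    rw [hg]
    unfold J3h460.hh
    rw [max_eq_left]
    rw [div_le_iff₀ (by positivity)] at hcon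
    push_cast
    linarith
  have hb : ∀ c : ℝ, Bd (fun n => g ((y n - c : ℝ) : UnitAddCircle)) := fun c =>
    J3h460.b_of01 (fun n => hg0 _) (fun n => hg1 _)
  have hinv : ∀ c : ℝ, μ.m (fun n => g ((y n - c : ℝ) : UnitAddCircle)) =
      μ.m (fun n => g ((y n : ℝ) : UnitAddCircle)) := by
    intro c
    have := real_inv μ (fun _ => 1) y h (fun _ => by norm_num) g hgc c
    simpa using this
  have hsum : ∀ n, ∑ j ∈ range K, g ((y n - j / K : ℝ) : UnitAddCircle) ≤ 1 := by
    intro n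
    by_cases hall : ∀ j ∈ range K, g ((y n - j / K : ℝ) : UnitAddCircle) = 0
    · rw [sum_eq_zero hall]; norm_num
    · push Not at hall
      obtain ⟨i, hi, hgi⟩ := hall
      rw [sum_eq_single i]
      · exact hg1 _
      · intro j hj hji
        by_contra hgj
        have n1 := hgz _ hgi
        have n2 := hgz _ hgj
        rw [mem_range] at hi hj
        have key : ∀ a b : ℕ, a < b → b < K →
            ‖((y n - a / K : ℝ) : UnitAddCircle)‖ < 1 / (2 * K) →
            ‖((y n - b / K : ℝ) : UnitAddCircle)‖ < 1 / (2 * K) → False := by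
          intro a b hab hbK ha hb
          have e : (((b : ℝ) / K - a / K : ℝ) : UnitAddCircle) =
              ((y n - a / K : ℝ) : UnitAddCircle) - ((y n - b / K : ℝ) : UnitAddCircle) := by
            rw [← AddCircle.coe_sub]
            congr 1
            ring
          have h3 : 1 / (K : ℝ) ≤ ‖(((b : ℝ) / K - a / K : ℝ) : UnitAddCircle)‖ := by
            have hab' : (a : ℝ) + 1 ≤ b := by exact_mod_cast hab
            have hbK' : (b : ℝ) + 1 ≤ K := by exact_mod_cast hbK
            have ha0 : (0 : ℝ) ≤ a := Nat.cast_nonneg a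
            apply J3h460.le_norm_coe
            · rw [← sub_div]
              exact div_le_div_of_nonneg_right (by linarith) hK0.le
            · rw [← sub_div, div_le_iff₀ hK0, sub_mul, div_mul_cancel₀ _ hK0.ne']
              linarith
          have h4 := norm_sub_le ((y n - a / K : ℝ) : UnitAddCircle) ((y n - b / K : ℝ) : UnitAddCircle)
          rw [← e] at h4
          have h5 : 1 / (2 * (K : ℝ)) + 1 / (2 * K) = 1 / K := by field_simp; norm_num
          linarith
        rcases lt_or_gt_of_ne hji with h6 | h6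
        · exact key j i h6 hi n2 n1
        · exact key i j h6 hj n1 n2
      · intro h6
        exact absurd hi h6
  have h1 : (K : ℝ) * μ.m (fun n => g ((y n : ℝ) : UnitAddCircle)) ≤ 1 := by
    have hb' : ∀ j ∈ range K, Bd (fun n => g ((y n - (j : ℝ) / K : ℝ) : UnitAddCircle)) :=
      fun j _ => hb _
    have h2 := J3h460.m_mono μ (J3h460.b_sum (range K) hb') (J3h460.b_const 1) hsum
    rw [J3h460.m_const, J3h460.m_sum μ _ hb', sum_congr rfl (fun j _ => hinv _),
      sum_const, card_range, nsmul_eq_mul] at h2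
    exact h2
  have h2 : ∀ n, ind (fun n => ‖((y n - c : ℝ) : UnitAddCircle)‖ < 1 / (4 * K)) n ≤
      2 * g ((y n - c : ℝ) : UnitAddCircle) := by
    intro n
    unfold ind
    split_ifs with hn
    · have h3 : 1 / 2 ≤ g ((y n - c : ℝ) : UnitAddCircle) := by
        rw [hg]
        unfold J3h460.hh
        refine le_max_of_le_right ?_
        have hn : ‖((y n - c : ℝ) : UnitAddCircle)‖ < 1 / (4 * K) := hn
        rw [lt_div_iff₀ (by positivity)] at hn
        push_cast
        linarith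
      linarith
    · have := hg0 ((y n - c : ℝ) : UnitAddCircle)
      linarith
  have h3 := J3h460.m_mono μ (Bd_ind _) (J3h460.b_smul 2 (hb c)) h2
  rw [μ.smul _ _ (hb c), hinv] at h3
  rw [le_div_iff₀ hK0]
  nlinarith

end mean

/-- the cells of `⌊x n⌋ mod W` have the same means -/
lemma cells (μ : NM) (F : ℕ → ℝ) (hF : ∀ n, |F n| ≤ 1) (x : ℕ → ℝ) (hx : ∀ n, 0 ≤ x n) {W : ℕ} (hW : 1 ≤ W)
    (h : ∀ z : ℤ, z ≠ 0 → ∀ θ : ℝ, μ.m (fun n => F n * ph θ (z * (x n / W))) = 0)
    (h1 : ∀ z : ℤ, z ≠ 0 → ∀ θ : ℝ, μ.m (fun n => (1 : ℝ) * ph θ (z * (x n / W))) = 0)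
    {j : ℕ} (hj : j < W) :
    μ.m (fun n => F n * (if ⌊x n⌋₊ % W = j then 1 else 0)) = (1 / (W : ℝ)) * μ.m F := by
  classical
  have hW0 : (0 : ℝ) < W := by exact_mod_cast hW
  have hbcl : ∀ j, Bd (fun n => F n * (if ⌊x n⌋₊ % W = j then (1 : ℝ) else 0)) := fun j => ⟨1, fun n => by
    refine mul_le' (hF n) ?_
    split_ifs <;> norm_num⟩
  have hsame : ∀ j < W, μ.m (fun n => F n * (if ⌊x n⌋₊ % W = j then (1 : ℝ) else 0)) =
      μ.m (fun n => F n * (if ⌊x n⌋₊ % W = 0 then (1 : ℝ) else 0)) := by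
    intro j hj
    rw [← sub_eq_zero, ← abs_nonpos_iff]
    apply le_of_forall_pos_le_add
    intro ε hε
    rw [zero_add]
    obtain ⟨K, hK⟩ := exists_nat_gt (8 / ε)
    have hK0 : (0 : ℝ) < K := lt_trans (by positivity) hK
    have hK1 : 1 ≤ K := by exact_mod_cast hK0
    have hKε : 2 / (K : ℝ) ≤ ε / 4 := by
      rw [div_lt_iff₀ hε] at hK
      rw [div_le_div_iff₀ hK0 (by norm_num)]
      linarith
    set δ : ℝ := 1 / (4 * K) with hδ
    have hδ0 : 0 < δ := by positivity
    have hclose : ∀ j < W, |μ.m (fun n => F n * (if ⌊x n⌋₊ % W = j then (1 : ℝ) else 0)) -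
        μ.m (fun n => F n * J3h460.gg W δ ((x n / W - j / W : ℝ) : UnitAddCircle))| ≤ ε / 2 := by
      intro j hj
      have hb2 : Bd (fun n => F n * J3h460.gg W δ ((x n / W - j / W : ℝ) : UnitAddCircle)) := ⟨1, fun n => by
        refine mul_le' (hF n) ?_
        rw [abs_of_nonneg (J3h460.gg_nonneg _ _ _)]
        exact J3h460.gg_le_one _ _ _⟩
      have hm := J3h460.m_close μ (hbcl j) hb2 (J3h460.b_add
        (Bd_ind (fun n => ‖((x n / W - j / W : ℝ) : UnitAddCircle)‖ < δ))
        (Bd_ind (fun n => ‖((x n / W - (j + 1) / W : ℝ) : UnitAddCircle)‖ < δ))) (fun n => by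
        rw [← mul_sub, abs_mul]
        have h2 := J3h460.arc (W := W) (δ := δ) hW hδ0 (a := x n) (hx n) hj
        refine (mul_le_of_le_one_left (abs_nonneg _) (hF n)).trans ?_
        unfold ind
        convert h2)
      refine hm.trans ?_
      rw [μ.add _ _ (Bd_ind _) (Bd_ind _)]
      have h2 := small_arc μ (fun n => x n / W) h1 hK1 (j / W)
      have h3 := small_arc μ (fun n => x n / W) h1 hK1 ((j + 1) / W)
      linarith
    have k1 := hclose j hj
    have k2 := hclose 0 (by omega)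
    have r1 := real_inv μ F (fun n => x n / W) h hF (J3h460.gg W δ) (J3h460.gg_cont W δ) (j / W)
    have r2 := real_inv μ F (fun n => x n / W) h hF (J3h460.gg W δ) (J3h460.gg_cont W δ) ((0 : ℕ) / W)
    rw [r1] at k1
    rw [r2] at k2
    have k3 := abs_sub_le (μ.m (fun n => F n * (if ⌊x n⌋₊ % W = j then (1 : ℝ) else 0)))
      (μ.m (fun n => F n * J3h460.gg W δ ((x n / W : ℝ) : UnitAddCircle)))
      (μ.m (fun n => F n * (if ⌊x n⌋₊ % W = 0 then (1 : ℝ) else 0)))
    rw [abs_sub_comm (μ.m (fun n => F n * J3h460.gg W δ ((x n / W : ℝ) : UnitAddCircle)))] at k3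
    linarith
  have hsum : μ.m F = ∑ j ∈ range W, μ.m (fun n => F n * (if ⌊x n⌋₊ % W = j then (1 : ℝ) else 0)) := by
    rw [← μ.sum (range W) fun j _ => hbcl j]
    congr 1
    funext n
    rw [← mul_sum, sum_ite_eq (range W) (⌊x n⌋₊ % W) (fun _ => (1 : ℝ)),
      if_pos (mem_range.2 (Nat.mod_lt _ hW)), mul_one]
  rw [hsum, sum_congr rfl fun i hi => (hsame i (mem_range.1 hi)).trans (hsame j hj).symm, sum_const, card_range,
    nsmul_eq_mul]
  field_simp

end EQp

/-- **Package EQ.** -/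
theorem eq_thm : S_EQ := by
  classical
  intro U hU L x β hx W hW r v hr
  set μ := um U hU with hμ
  have hW0 : (0 : ℝ) < W := by exact_mod_cast hW
  have hweyl : ∀ v₀ : ℕ, ∀ z : ℤ, z ≠ 0 → ∀ θ : ℝ,
      μ.m (fun n => (if n % W = v₀ then (1 : ℝ) else 0) * ph θ (z * (x n / W))) = 0 :=
    fun v₀ z hz θ => EQp.weyl U hU hx hW v₀ z hz θ
  have hweyl1 : ∀ z : ℤ, z ≠ 0 → ∀ θ : ℝ, μ.m (fun n => (1 : ℝ) * ph θ (z * (x n / W))) = 0 := by
    intro z hz θ
    have hb : ∀ v₀ : ℕ, Bd (fun n => (if n % W = v₀ then (1 : ℝ) else 0) * ph θ (z * (x n / W))) :=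
      fun v₀ => ⟨1, fun n => by
        refine mul_le' ?_ (ph_le _ _)
        split_ifs <;> norm_num⟩
    have e : (fun n => (1 : ℝ) * ph θ (z * (x n / W))) =
        fun n => ∑ v₀ ∈ range W, (if n % W = v₀ then (1 : ℝ) else 0) * ph θ (z * (x n / W)) := by
      funext n
      rw [← sum_mul, sum_ite_eq (range W) (n % W) (fun _ => (1 : ℝ)), if_pos (mem_range.2 (Nat.mod_lt _ hW))]
    rw [e, μ.sum (range W) fun v₀ _ => hb v₀]
    exact sum_eq_zero fun v₀ _ => hweyl v₀ z hz θ
  set v₀ := v none with hv₀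
  have hk : ∀ n, (∀ k : Option Unit, k ≠ some () → bx x k n % W = v k) ↔ n % W = v₀ := by
    intro n
    constructor
    · intro h
      exact h none (by simp)
    · intro h k hk
      cases k with
      | none => exact h
      | some u => exact absurd rfl hk
  have e1 : ind (fun n => (∀ k : Option Unit, k ≠ some () → bx x k n % W = v k) ∧ bx x (some ()) n % W = r) =
      fun n => (if n % W = v₀ then (1 : ℝ) else 0) * (if ⌊x n⌋₊ % W = r then 1 else 0) := by
    funext n
    by_cases h1 : n % W = v₀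
    · by_cases h2 : ⌊x n⌋₊ % W = r
      · rw [EQp.ind_t ⟨(hk n).2 h1, h2⟩, if_pos h1, if_pos h2, mul_one]
      · rw [EQp.ind_f (fun h => h2 h.2), if_neg h2, mul_zero]
    · rw [EQp.ind_f (fun h => h1 ((hk n).1 h.1)), if_neg h1, zero_mul]
  have e2 : ind (fun n => ∀ k : Option Unit, k ≠ some () → bx x k n % W = v k) =
      fun n => (if n % W = v₀ then (1 : ℝ) else 0) := by
    funext n
    by_cases h1 : n % W = v₀
    · rw [EQp.ind_t ((hk n).2 h1), if_pos h1]
    · rw [EQp.ind_f (fun h => h1 ((hk n).1 h)), if_neg h1]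
  rw [e1, e2]
  exact EQp.cells μ _ (fun n => by split_ifs <;> norm_num) x hx.nonneg hW (hweyl v₀) hweyl1 hr

end Pool.Agent.P8H6.Uni
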